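import Mathlib
import Pool.Agent.Helper82.UM.Count
import Pool.Agent.Helper82.UM.Sharp

/-!
# Short linear relations between univalent coefficients: the exact exponent for almost all `n`
-/

namespace Pool.Agent.Results.MP_d6acc2_an.AlmostAll

open Metric Filter Topology
open scoped Real

/-- The class `S`: analytic injective functions on the open unit disc with `f 0 = 0` and
`f' 0 = 1`. -/
def ClassS (f : ℂ → ℂ) : Prop :=
  DifferentiableOn ℂ f (ball 0 1) ∧ Set.InjOn f (ball 0 1) ∧ f 0 = 0 ∧ deriv f 0 = 1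

/-- The `n`-th Taylor coefficient `a_n` of `f` at `0`. -/
noncomputable def taylorCoeff (f : ℂ → ℂ) (n : ℕ) : ℂ :=
  iteratedDeriv n f 0 / (n.factorial : ℂ)

/-- There are complex numbers `c 0 = 1, c 1, ..., c m` with `4 ^ (-m) ≤ ‖c m‖` and
`‖∑ i ∈ {0, ..., m}, c i * a (n + j + i)‖ ≤ y` for all `0 ≤ j ≤ W`. -/
def Relations (f : ℂ → ℂ) (m n : ℕ) (W y : ℝ) : Prop :=
  ∃ c : ℕ → ℂ, c 0 = 1 ∧ (1 / 4 : ℝ) ^ m ≤ ‖c m‖ ∧
    ∀ j : ℕ, (j : ℝ) ≤ W → ‖∑ i ∈ Finset.range (m + 1), c i * taylorCoeff f (n + j + i)‖ ≤ y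

/-- The number of the `n` in `{1, ..., X}` which lie in `E`. -/
noncomputable def count (E : Set ℕ) (X : ℕ) : ℕ := {n : ℕ | 1 ≤ n ∧ n ≤ X ∧ n ∈ E}.ncard

/-- The exponent `α` is admissible for `m` and almost all `n`: for every `f` in the class `S` and
every `k ≥ 1` there is `K` such that the inequalities of the problem, with the bound `K * n ^ α`
and `0 ≤ j ≤ k`, can be solved for all `n` outside a set of density `0`. -/
def AdmissibleAlmostAll (m : ℕ) (α : ℝ) : Prop :=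
  ∀ f : ℂ → ℂ, ClassS f → ∀ k : ℕ, 1 ≤ k → ∃ K : ℝ,
    Tendsto (fun X : ℕ => (count {n | ¬ Relations f m n k (K * (n : ℝ) ^ α)} X : ℝ) / X)
      atTop (𝓝 0)

/-- For every `m ≥ 1` the optimal exponent for almost all `n` is `β = -1 + 2 / (m + 1)`.
Moreover, for every `f` in the class `S`: for every `n ≥ 1` there is one choice of
`c 0 = 1, c 1, ..., c m` whose mean square over each block `n ≤ N ≤ L n` is at most
`K L * n ^ (1 + 2 β)` times a power of `1 + log n`; the number of exceptional `n ≤ X` for the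
exponent `α` and windows `0 ≤ j ≤ n ^ θ` is `O(X ^ γ)` whenever `γ > 0` and
`γ > 1 + θ - 2 (α - β)`; and there is an `f` in the class `S` for which, for every `n ≥ 1`, no
choice gives less than a constant times `n ^ β`. -/
theorem result : ∀ m : ℕ, 1 ≤ m →
    ((∀ α : ℝ, -1 + 2 / ((m : ℝ) + 1) < α → AdmissibleAlmostAll m α) ∧
      ∀ α : ℝ, α < -1 + 2 / ((m : ℝ) + 1) → ¬ AdmissibleAlmostAll m α) ∧
    (∀ f : ℂ → ℂ, ClassS f →
      ∃ K : ℕ → ℝ, ∀ n : ℕ, 1 ≤ n → ∃ c : ℕ → ℂ, c 0 = 1 ∧ (1 / 4 : ℝ) ^ m ≤ ‖c m‖ ∧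
        ∀ L : ℕ, 1 ≤ L → ∑ N ∈ Finset.Icc n (L * n),
          ‖∑ i ∈ Finset.range (m + 1), c i * taylorCoeff f (N + i)‖ ^ 2 ≤
            K L * (n : ℝ) ^ (-1 + 4 / ((m : ℝ) + 1)) * (1 + Real.log n) ^ ((m + 1) * (m + 2))) ∧
    (∀ f : ℂ → ℂ, ClassS f → ∀ α θ γ : ℝ, 0 ≤ θ → θ ≤ 1 → 0 < γ →
      1 + θ - 2 * (α - (-1 + 2 / ((m : ℝ) + 1))) < γ → ∃ K : ℝ, ∀ X : ℕ,
        (count {n | ¬ Relations f m n ((n : ℝ) ^ θ) ((n : ℝ) ^ α)} X : ℝ) ≤ K * (X : ℝ) ^ γ) ∧
    ∃ f : ℂ → ℂ, ClassS f ∧ ∃ κ : ℝ, 0 < κ ∧ ∀ n : ℕ, 1 ≤ n → ∀ c : ℕ → ℂ, c 0 = 1 →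
      ∃ j : ℕ, j ≤ m ∧ κ * (n : ℝ) ^ (-1 + 2 / ((m : ℝ) + 1)) ≤
        ‖∑ i ∈ Finset.range (m + 1), c i * taylorCoeff f (n + j + i)‖ := by
  classical
  intro m hm
  have hm0 : (0 : ℝ) < (m : ℝ) + 1 := by positivity
  -- the number of exceptions
  have hcount : ∀ f : ℂ → ℂ, ClassS f → ∀ α θ γ : ℝ, 0 ≤ θ → θ ≤ 1 → 0 < γ →
      1 + θ - 2 * (α - (-1 + 2 / ((m : ℝ) + 1))) < γ → ∃ K : ℝ, ∀ X : ℕ,
        (count {n | ¬ Relations f m n ((n : ℝ) ^ θ) ((n : ℝ) ^ α)} X : ℝ) ≤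
          K * (X : ℝ) ^ γ := by
    intro f hf α θ γ h0 h1 h2 h3
    obtain ⟨C, hC⟩ := Helper82.UM.total hm hf h0 h1 h3 h2
    refine ⟨C, fun X => ?_⟩
    refine le_trans (le_of_eq ?_) (hC X)
    congr 1
    unfold count
    rw [← Set.ncard_coe_finset]
    congr 1
    ext n
    simp only [Set.mem_setOf_eq, Finset.coe_filter, Finset.mem_Icc]
    exact and_assoc.symm
  -- the lower bound
  have hsharp : ∃ f : ℂ → ℂ, ClassS f ∧ ∃ κ : ℝ, 0 < κ ∧ ∀ n : ℕ, 1 ≤ n →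
      ∀ c : ℕ → ℂ, c 0 = 1 → ∃ j : ℕ, j ≤ m ∧ κ * (n : ℝ) ^ (-1 + 2 / ((m : ℝ) + 1)) ≤
        ‖∑ i ∈ Finset.range (m + 1), c i * taylorCoeff f (n + j + i)‖ :=
    ⟨Helper82.UM.fS (m + 1), Helper82.UM.fS_classS (by omega),
      2 / ((m : ℝ) + 1) * (2 : ℝ) ^ (2 / ((m : ℝ) + 1) - 1), by positivity,
      fun n hn c hc => Helper82.UM.sharp hm hn c hc⟩
  refine ⟨⟨?_, ?_⟩, ?_, hcount, hsharp⟩
  · -- above the exponent
    intro α hα f hf k _
    set η : ℝ := α - (-1 + 2 / ((m : ℝ) + 1)) with hη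
    have hη0 : 0 < η := by rw [hη]; linarith
    set θ : ℝ := min 1 η with hθ
    have hθ0 : 0 < θ := lt_min one_pos hη0
    have hθ1 : θ ≤ 1 := min_le_left _ _
    have hθη : θ ≤ η := min_le_right _ _
    set γ : ℝ := max (1 / 2) (1 - η / 2) with hγ
    have hγ0 : 0 < γ := lt_of_lt_of_le (by norm_num) (le_max_left _ _)
    have hγ1 : γ < 1 := max_lt (by norm_num) (by linarith)
    have hγη : 1 + θ - 2 * η < γ := lt_of_lt_of_le (by linarith) (le_max_right _ _)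
    obtain ⟨C, hC⟩ := hcount f hf α θ γ hθ0.le hθ1 hγ0 hγη
    refine ⟨1, ?_⟩
    -- for large `n` the window contains `0, ..., k`
    obtain ⟨n1, hn1⟩ : ∃ n1 : ℕ, ∀ n : ℕ, n1 ≤ n → (k : ℝ) ≤ (n : ℝ) ^ θ := by
      have ht : Tendsto (fun n : ℕ => (n : ℝ) ^ θ) atTop atTop :=
        (tendsto_rpow_atTop hθ0).comp tendsto_natCast_atTop_atTop
      obtain ⟨n1, h⟩ := eventually_atTop.1 (ht.eventually_ge_atTop (k : ℝ))
      exact ⟨n1, h⟩
    have hle : ∀ X : ℕ, (count {n | ¬ Relations f m n k (1 * (n : ℝ) ^ α)} X : ℝ) ≤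
        C * (X : ℝ) ^ γ + n1 := by
      intro X
      have hsub : {n : ℕ | 1 ≤ n ∧ n ≤ X ∧ n ∈ {n | ¬ Relations f m n k (1 * (n : ℝ) ^ α)}} ⊆
          {n : ℕ | 1 ≤ n ∧ n ≤ X ∧ n ∈ {n | ¬ Relations f m n ((n : ℝ) ^ θ) ((n : ℝ) ^ α)}} ∪
            (Finset.range n1 : Set ℕ) := by
        intro n hn
        obtain ⟨h1, h2, h3⟩ := hn
        rcases lt_or_ge n n1 with h | h
        · exact Or.inr (by simpa using h)
        · refine Or.inl ⟨h1, h2, ?_⟩
          intro hr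
          apply h3
          obtain ⟨c, hc0, hcm, hc⟩ := hr
          refine ⟨c, hc0, hcm, fun j hj => ?_⟩
          rw [one_mul]
          exact hc j (hj.trans (hn1 n h))
      have hfin : ({n : ℕ | 1 ≤ n ∧ n ≤ X ∧
          n ∈ {n | ¬ Relations f m n ((n : ℝ) ^ θ) ((n : ℝ) ^ α)}} ∪
            (Finset.range n1 : Set ℕ)).Finite := by
        apply Set.Finite.union
        · exact (Set.finite_Icc 1 X).subset fun n hn => ⟨hn.1, hn.2.1⟩
        · exact (Finset.range n1).finite_toSet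
      have h4 := (Set.ncard_le_ncard hsub hfin).trans (Set.ncard_union_le _ _)
      rw [Set.ncard_coe_finset, Finset.card_range] at h4
      have h5 : (count {n | ¬ Relations f m n k (1 * (n : ℝ) ^ α)} X : ℝ) ≤
          (count {n | ¬ Relations f m n ((n : ℝ) ^ θ) ((n : ℝ) ^ α)} X : ℝ) + n1 := by
        unfold count
        exact_mod_cast h4
      linarith [hC X]
    have hlim : Tendsto (fun X : ℕ => C * (X : ℝ) ^ (γ - 1) + n1 / (X : ℝ)) atTop (𝓝 0) := by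
      have h1 : Tendsto (fun X : ℕ => (X : ℝ) ^ (γ - 1)) atTop (𝓝 0) := by
        have := (tendsto_rpow_neg_atTop (show 0 < 1 - γ by linarith)).comp
          (tendsto_natCast_atTop_atTop (R := ℝ))
        refine this.congr fun X => ?_
        simp only [Function.comp]
        congr 1
        ring
      have h2 : Tendsto (fun X : ℕ => (n1 : ℝ) / (X : ℝ)) atTop (𝓝 0) :=
        tendsto_const_div_atTop_nhds_zero_nat _
      simpa using (h1.const_mul C).add h2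
    refine squeeze_zero' (Eventually.of_forall fun X => by positivity) ?_ hlim
    filter_upwards [eventually_ge_atTop 1] with X hX
    have hX0 : (0 : ℝ) < X := by exact_mod_cast hX
    rw [div_le_iff₀ hX0]
    refine (hle X).trans (le_of_eq ?_)
    rw [add_mul, div_mul_cancel₀ _ hX0.ne', mul_assoc, Real.rpow_sub_one hX0.ne',
      div_mul_cancel₀ _ hX0.ne']
  · -- below the exponent
    intro α hα hadm
    obtain ⟨f, hf, κ, hκ, hlow⟩ := hsharp
    obtain ⟨K, hK⟩ := hadm f hf (m + 1) (by omega)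
    -- for large `n` the relations fail
    have hbig : ∃ n1 : ℕ, ∀ n : ℕ, n1 ≤ n → ¬ Relations f m n ((m + 1 : ℕ) : ℝ)
        (K * (n : ℝ) ^ α) := by
      have ht : Tendsto (fun n : ℕ => κ * (n : ℝ) ^ (-1 + 2 / ((m : ℝ) + 1) - α)) atTop
          atTop := by
        apply Tendsto.const_mul_atTop hκ
        exact (tendsto_rpow_atTop (by linarith)).comp tendsto_natCast_atTop_atTop
      obtain ⟨n1, h⟩ := eventually_atTop.1 (ht.eventually_gt_atTop K)
      refine ⟨n1 + 1, fun n hn hr => ?_⟩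
      have hn0 : (0 : ℝ) < n := by exact_mod_cast (by omega : 0 < n)
      obtain ⟨c, hc0, -, hc⟩ := hr
      obtain ⟨j, hj, hj2⟩ := hlow n (by omega) c hc0
      have h3 := hc j (by exact_mod_cast (by omega : j ≤ m + 1))
      have h4 := h n (by omega)
      have h5 : K * (n : ℝ) ^ α < κ * (n : ℝ) ^ (-1 + 2 / ((m : ℝ) + 1)) := by
        calc K * (n : ℝ) ^ α < κ * (n : ℝ) ^ (-1 + 2 / ((m : ℝ) + 1) - α) * (n : ℝ) ^ α := by
              gcongr
          _ = κ * (n : ℝ) ^ (-1 + 2 / ((m : ℝ) + 1)) := by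
              rw [mul_assoc, ← Real.rpow_add hn0]
              congr 2
              ring
      linarith
    obtain ⟨n1, hn1⟩ := hbig
    have hge : ∀ X : ℕ, n1 + 1 ≤ X →
        ((X : ℝ) - n1) / X ≤ (count {n | ¬ Relations f m n ((m + 1 : ℕ) : ℝ)
          (K * (n : ℝ) ^ α)} X : ℝ) / X := by
      intro X hX
      have hX0 : (0 : ℝ) < X := by exact_mod_cast (by omega : 0 < X)
      have hsub : ((Finset.Ioc n1 X : Finset ℕ) : Set ℕ) ⊆ {n : ℕ | 1 ≤ n ∧ n ≤ X ∧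
          n ∈ {n | ¬ Relations f m n ((m + 1 : ℕ) : ℝ) (K * (n : ℝ) ^ α)}} := by
        intro n hn
        have h := Finset.mem_Ioc.1 (Finset.mem_coe.1 hn)
        exact ⟨by omega, h.2, hn1 n h.1.le⟩
      have hfin : {n : ℕ | 1 ≤ n ∧ n ≤ X ∧
          n ∈ {n | ¬ Relations f m n ((m + 1 : ℕ) : ℝ) (K * (n : ℝ) ^ α)}}.Finite :=
        (Set.finite_Icc 1 X).subset fun n hn => ⟨hn.1, hn.2.1⟩
      have h4 := Set.ncard_le_ncard hsub hfin
      rw [Set.ncard_coe_finset, Nat.card_Ioc] at h4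
      have h5 : (X : ℝ) - n1 ≤ (count {n | ¬ Relations f m n ((m + 1 : ℕ) : ℝ)
          (K * (n : ℝ) ^ α)} X : ℝ) := by
        have : ((X - n1 : ℕ) : ℝ) = (X : ℝ) - n1 := by
          rw [Nat.cast_sub (by omega)]
        rw [← this]
        unfold count
        exact_mod_cast h4
      gcongr
    have hlim : Tendsto (fun X : ℕ => ((X : ℝ) - n1) / X) atTop (𝓝 1) := by
      have h2 : Tendsto (fun X : ℕ => 1 - (n1 : ℝ) / (X : ℝ)) atTop (𝓝 (1 - 0)) :=
        tendsto_const_nhds.sub (tendsto_const_div_atTop_nhds_zero_nat _)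
      rw [sub_zero] at h2
      refine h2.congr' ?_
      filter_upwards [eventually_ge_atTop 1] with X hX
      have hX0 : (X : ℝ) ≠ 0 := by
        have : (0 : ℝ) < X := by exact_mod_cast hX
        exact this.ne'
      rw [sub_div, div_self hX0]
    have h01 : (1 : ℝ) ≤ 0 := by
      refine le_of_tendsto_of_tendsto hlim hK ?_
      filter_upwards [eventually_ge_atTop (n1 + 1)] with X hX
      exact hge X hX
    linarith
  · -- mean square
    intro f hf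
    obtain ⟨K, -, hK⟩ := Helper82.UM.meanSquare hm hf
    exact ⟨K, hK⟩

end Pool.Agent.Results.MP_d6acc2_an.AlmostAll
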