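import Mathlib
import Pool.Agent.Helper38.UB.Final

/-!
# Short linear relations between the coefficients of bounded functions in `S`
-/

namespace Pool.Agent.Results.MP_d6acc2_an.BoundedFunctions

open Metric Filter Topology
open scoped Real

/-- The class `S`: analytic injective functions on the open unit disc with `f 0 = 0` and
`f' 0 = 1`. -/
def ClassS (f : ℂ → ℂ) : Prop :=
  DifferentiableOn ℂ f (ball 0 1) ∧ Set.InjOn f (ball 0 1) ∧ f 0 = 0 ∧ deriv f 0 = 1

/-- `f` is bounded in the open unit disc. -/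
def Bounded (f : ℂ → ℂ) : Prop := ∃ M : ℝ, ∀ z ∈ ball (0 : ℂ) 1, ‖f z‖ ≤ M

/-- The `n`-th Taylor coefficient `a_n` of `f` at `0`. -/
noncomputable def taylorCoeff (f : ℂ → ℂ) (n : ℕ) : ℂ :=
  iteratedDeriv n f 0 / (n.factorial : ℂ)

/-- The exponent `α` is admissible for `m` and the bounded functions in `S`: the definition of the
problem, but only for bounded `f`. -/
def AdmissibleBounded (m : ℕ) (α : ℝ) : Prop :=
  ∀ f : ℂ → ℂ, ClassS f → Bounded f → ∀ k : ℕ, 1 ≤ k → ∃ K : ℝ, ∀ n : ℕ, 1 ≤ n →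
    ∃ c : ℕ → ℂ, c 0 = 1 ∧ (1 / 4 : ℝ) ^ m ≤ ‖c m‖ ∧
      ∀ j : ℕ, j ≤ k →
        ‖∑ i ∈ Finset.range (m + 1), c i * taylorCoeff f (n + j + i)‖ ≤ K * (n : ℝ) ^ α

/-- Bounded univalent functions: analytic, injective and bounded in the open unit disc. -/
def BoundedUnivalent (g : ℂ → ℂ) : Prop :=
  DifferentiableOn ℂ g (ball 0 1) ∧ Set.InjOn g (ball 0 1) ∧ Bounded g

/-- `B_b(1)`, the integral means exponent of bounded univalent functions: the infimum of all `β`
such that `∫_0^{2π} |g'(r e^{it})| dt = O((1 - r)^(-β))` (`0 < r < 1`) for every bounded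
univalent function `g`. -/
noncomputable def Bb1 : ℝ :=
  sInf {β : ℝ | ∀ g : ℂ → ℂ, BoundedUnivalent g → ∃ C : ℝ, ∀ r : ℝ, 0 < r → r < 1 →
    (∫ t in (0 : ℝ)..(2 * π), ‖deriv g (r * Complex.exp (t * Complex.I))‖)
      ≤ C * (1 - r) ^ (-β)}

/-- For bounded functions in `S` short linear relations do not help at all: with `B = B_b(1)`, the
threshold of the admissible exponents is `-(1 - B)` for every `m`, which is the optimal exponent
for the coefficients `a_n` themselves; and there is one bounded function in `S` which shows this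
for all `m`, even without any condition on `c_1, ..., c_m` and with only the relations for
`0 ≤ j ≤ m`. -/
theorem result :
    (∀ m : ℕ, (∀ α, -(1 - Bb1) < α → AdmissibleBounded m α) ∧
      ∀ α, α < -(1 - Bb1) → ¬ AdmissibleBounded m α) ∧
    ∃ f : ℂ → ℂ, ClassS f ∧ Bounded f ∧ ∀ (m : ℕ) (α K : ℝ), α < -(1 - Bb1) →
      ∃ n : ℕ, 1 ≤ n ∧ ∀ c : ℕ → ℂ, c 0 = 1 → ∃ j : ℕ, j ≤ m ∧
        K * (n : ℝ) ^ α < ‖∑ i ∈ Finset.range (m + 1), c i * taylorCoeff f (n + j + i)‖ := by
  have hB : Bb1 = Helper51.LT.Bb := by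
    unfold Bb1 Helper51.LT.Bb
    congr 1
    ext β
    exact (Helper51.LT.Bd_iff β).symm
  have hB' : -(1 - Bb1) = -1 + Helper51.LT.Bb := by rw [hB]; ring
  rw [hB']
  obtain ⟨f, hf, hfb, hlow⟩ := Helper38.UB.lower
  have hfB : Bounded f := ⟨4, hfb⟩
  refine ⟨fun m => ⟨?_, ?_⟩, f, hf, hfB, hlow⟩
  · intro α hα g hg hgb k _
    obtain ⟨M, hM⟩ := hgb
    obtain ⟨K, hK0, hK⟩ := Helper38.UB.coeff_le hg hM hα
    refine ⟨((m : ℝ) + 1) * (K * (1 + k + m) ^ |α|), ?_⟩
    intro n hn
    refine ⟨fun _ => 1, rfl, ?_, ?_⟩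
    · rw [norm_one]
      exact pow_le_one₀ (by norm_num) (by norm_num)
    · intro j hj
      have hn1 : (1 : ℝ) ≤ n := by exact_mod_cast hn
      have hterm : ∀ i ∈ Finset.range (m + 1), ‖(1 : ℂ) * taylorCoeff g (n + j + i)‖
          ≤ K * (1 + k + m) ^ |α| * (n : ℝ) ^ α := by
        intro i hi
        rw [Finset.mem_range] at hi
        rw [one_mul]
        refine (hK (n + j + i) (by omega)).trans ?_
        rw [mul_assoc]
        apply mul_le_mul_of_nonneg_left _ hK0
        have h1 : (n : ℝ) ≤ ((n + j + i : ℕ) : ℝ) := by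
          exact_mod_cast (by omega : n ≤ n + j + i)
        have hjr : (j : ℝ) ≤ k := by exact_mod_cast hj
        have hir : (i : ℝ) ≤ m := by exact_mod_cast (by omega : i ≤ m)
        have h2 : ((n + j + i : ℕ) : ℝ) ≤ (1 + k + m) * n := by
          push_cast
          have hk0 : (0 : ℝ) ≤ k := Nat.cast_nonneg k
          have hm0 : (0 : ℝ) ≤ m := Nat.cast_nonneg m
          nlinarith
        have hbase : (1 : ℝ) ≤ 1 + k + m := by
          have hk0 : (0 : ℝ) ≤ k := Nat.cast_nonneg k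
          have hm0 : (0 : ℝ) ≤ m := Nat.cast_nonneg m
          linarith
        have hone : (1 : ℝ) ≤ (1 + k + m) ^ |α| := Real.one_le_rpow hbase (abs_nonneg α)
        rcases le_or_gt 0 α with h | h
        · calc ((n + j + i : ℕ) : ℝ) ^ α ≤ ((1 + k + m) * (n : ℝ)) ^ α :=
                Real.rpow_le_rpow (by positivity) h2 h
            _ = (1 + k + m) ^ |α| * (n : ℝ) ^ α := by
                rw [Real.mul_rpow (by linarith) (by linarith), abs_of_nonneg h]
        · calc ((n + j + i : ℕ) : ℝ) ^ α ≤ (n : ℝ) ^ α :=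
                Real.rpow_le_rpow_of_nonpos (by linarith) h1 h.le
            _ ≤ (1 + k + m) ^ |α| * (n : ℝ) ^ α :=
                le_mul_of_one_le_left (Real.rpow_nonneg (by linarith) _) hone
      calc ‖∑ i ∈ Finset.range (m + 1), (1 : ℂ) * taylorCoeff g (n + j + i)‖
          ≤ ∑ i ∈ Finset.range (m + 1), ‖(1 : ℂ) * taylorCoeff g (n + j + i)‖ := norm_sum_le _ _
        _ ≤ ∑ _i ∈ Finset.range (m + 1), K * (1 + k + m) ^ |α| * (n : ℝ) ^ α :=
            Finset.sum_le_sum hterm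
        _ = ((m : ℝ) + 1) * (K * (1 + k + m) ^ |α|) * (n : ℝ) ^ α := by
            rw [Finset.sum_const, Finset.card_range, nsmul_eq_mul]
            push_cast
            ring
  · intro α hα hadm
    obtain ⟨K, hK⟩ := hadm f hf hfB (m + 1) (by omega)
    obtain ⟨n, hn, hc⟩ := hlow m α K hα
    obtain ⟨c, hc0, -, hcj⟩ := hK n hn
    obtain ⟨j, hj, hlt⟩ := hc c hc0
    exact absurd (hcj j (by omega)) (not_le.2 hlt)

end Pool.Agent.Results.MP_d6acc2_an.BoundedFunctions
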