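import Mathlib
import Pool.Agent.Helper51.LT.Zx

/-!
# The optimal exponents for short linear relations: the exact value
-/

namespace Pool.Agent.Results.MP_d6acc2_an.ExactExponent

open Metric Filter Topology
open scoped Real

/-- The class `S`: analytic injective functions on the open unit disc with `f 0 = 0` and
`f' 0 = 1`. -/
def ClassS (f : ℂ → ℂ) : Prop :=
  DifferentiableOn ℂ f (ball 0 1) ∧ Set.InjOn f (ball 0 1) ∧ f 0 = 0 ∧ deriv f 0 = 1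

/-- The `n`-th Taylor coefficient `a_n` of `f` at `0`. -/
noncomputable def taylorCoeff (f : ℂ → ℂ) (n : ℕ) : ℂ :=
  iteratedDeriv n f 0 / (n.factorial : ℂ)

/-- The exponent `α` is admissible for `m`: for every `f` in the class `S` and every `k ≥ 1`
there is `K` such that for every `n ≥ 1` there are complex numbers `c 0 = 1, c 1, ..., c m` with
`4 ^ (-m) ≤ ‖c m‖` and `‖∑ i ∈ {0, ..., m}, c i * a (n + j + i)‖ ≤ K * n ^ α` for
`0 ≤ j ≤ k`. -/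
def Admissible (m : ℕ) (α : ℝ) : Prop :=
  ∀ f : ℂ → ℂ, ClassS f → ∀ k : ℕ, 1 ≤ k → ∃ K : ℝ, ∀ n : ℕ, 1 ≤ n →
    ∃ c : ℕ → ℂ, c 0 = 1 ∧ (1 / 4 : ℝ) ^ m ≤ ‖c m‖ ∧
      ∀ j : ℕ, j ≤ k →
        ‖∑ i ∈ Finset.range (m + 1), c i * taylorCoeff f (n + j + i)‖ ≤ K * (n : ℝ) ^ α

/-- `α_m*`: the infimum of the exponents admissible for `m`. -/
noncomputable def alphaStar (m : ℕ) : ℝ := sInf {α : ℝ | Admissible m α}

/-- Bounded univalent functions: analytic, injective and bounded in the open unit disc. -/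
def BoundedUnivalent (g : ℂ → ℂ) : Prop :=
  DifferentiableOn ℂ g (ball 0 1) ∧ Set.InjOn g (ball 0 1) ∧
    ∃ M : ℝ, ∀ z ∈ ball (0 : ℂ) 1, ‖g z‖ ≤ M

/-- `B_b(1)`, the integral means exponent of bounded univalent functions: the infimum of all `β`
such that `∫_0^{2π} |g'(r e^{it})| dt = O((1 - r)^(-β))` (`0 < r < 1`) for every bounded
univalent function `g`. -/
noncomputable def Bb1 : ℝ :=
  sInf {β : ℝ | ∀ g : ℂ → ℂ, BoundedUnivalent g → ∃ C : ℝ, ∀ r : ℝ, 0 < r → r < 1 →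
    (∫ t in (0 : ℝ)..(2 * π), ‖deriv g (r * Complex.exp (t * Complex.I))‖)
      ≤ C * (1 - r) ^ (-β)}

/-- With `B = B_b(1)`: `0 ≤ B ≤ 1/2`, and for every `m ≥ 1` the number `α_m*` is the threshold of
admissibility and equals `-1 + B + (2/j - B) ((2 - B)/(2 + B))^(2(m + 1 - j))`, where `j` is the
largest integer with `1 ≤ j ≤ m + 1` and `(2j - 1) B ≤ 2`. -/
theorem result :
    0 ≤ Bb1 ∧ Bb1 ≤ 1 / 2 ∧
    (∀ m : ℕ, 1 ≤ m →
      (∀ α, alphaStar m < α → Admissible m α) ∧ (∀ α, α < alphaStar m → ¬ Admissible m α) ∧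
      ∃ j : ℕ, IsGreatest {i : ℕ | 1 ≤ i ∧ i ≤ m + 1 ∧ (2 * (i : ℝ) - 1) * Bb1 ≤ 2} j ∧
        alphaStar m = -1 + Bb1 + (2 / j - Bb1) * ((2 - Bb1) / (2 + Bb1)) ^ (2 * (m + 1 - j))) ∧
    (alphaStar 2 = -(1 / 3) ↔ Bb1 ≤ 2 / 5) ∧
    ((∀ ε : ℝ, 0 < ε → Admissible 3 (-(1 / 2) + ε)) ↔ Bb1 ≤ 2 / 7) ∧
    Tendsto alphaStar atTop (𝓝 (-(1 - Bb1))) := by
  have hB : Bb1 = Helper51.LT.Bb := by
    unfold Bb1 Helper51.LT.Bb
    congr 1
    ext β
    exact (Helper51.LT.Bd_iff β).symm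
  have hA : alphaStar = Helper51.LT.aS := rfl
  rw [hA, hB]
  refine ⟨Helper51.LT.zBb_nonneg, Helper51.LT.zBb_le_half, ?_, Helper51.LT.z_two, ?_,
    Helper51.LT.z_tendsto⟩
  · intro m hm
    obtain ⟨h1, h2⟩ := Helper51.LT.z_spec hm
    obtain ⟨j, hj, h3⟩ := Helper51.LT.z_exact hm
    exact ⟨h1, h2, j, hj, h3⟩
  · exact Helper51.LT.z_three

end Pool.Agent.Results.MP_d6acc2_an.ExactExponent
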