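import Mathlib
import Pool.Agent.Helper60.Rel.Final

/-!
# Short linear relations among the coefficients of a univalent function
-/

namespace Pool.Agent.Results.MP_d6acc2_an.ShortRelations

open Metric

/-- The class `S`: analytic injective functions on the open unit disc with `f 0 = 0` and
`f' 0 = 1`. -/
def ClassS (f : ℂ → ℂ) : Prop :=
  DifferentiableOn ℂ f (ball 0 1) ∧ Set.InjOn f (ball 0 1) ∧ f 0 = 0 ∧ deriv f 0 = 1

/-- The `n`-th Taylor coefficient `a_n` of `f` at `0`. -/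
noncomputable def taylorCoeff (f : ℂ → ℂ) (n : ℕ) : ℂ :=
  iteratedDeriv n f 0 / (n.factorial : ℂ)

/-- The exponent `α` is admissible for `m`: for every `f` in the class `S` and every `k ≥ 1`
there is `K` such that for every `n ≥ 1` there are complex numbers `c 0 = 1, c 1, ..., c m` with
`4 ^ (-m) ≤ ‖c m‖` and `‖∑ i ∈ {0, ..., m}, c i * a (n + j + i)‖ ≤ K * n ^ α` for
`0 ≤ j ≤ k`. -/
def Admissible (m : ℕ) (α : ℝ) : Prop :=
  ∀ f : ℂ → ℂ, ClassS f → ∀ k : ℕ, 1 ≤ k → ∃ K : ℝ, ∀ n : ℕ, 1 ≤ n →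
    ∃ c : ℕ → ℂ, c 0 = 1 ∧ (1 / 4 : ℝ) ^ m ≤ ‖c m‖ ∧
      ∀ j : ℕ, j ≤ k →
        ‖∑ i ∈ Finset.range (m + 1), c i * taylorCoeff f (n + j + i)‖ ≤ K * (n : ℝ) ^ α

/-- For every `m ≥ 2` the exponent `-0.5093 * (1 - 0.3673 ^ (m - 1))` is admissible for `m`, and
for every `m > 4` this exponent is smaller than `-1 / 2`. -/
theorem result : ∀ m : ℕ, 2 ≤ m →
    Admissible m (-(5093 / 10000 * (1 - (3673 / 10000 : ℝ) ^ (m - 1)))) ∧
      (4 < m → -(5093 / 10000 * (1 - (3673 / 10000 : ℝ) ^ (m - 1))) < -(1 / 2)) := by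
  intro m hm
  refine ⟨?_, fun h => Helper60.Rel.al_lt h⟩
  intro f hf k hk
  exact Helper60.Rel.main hm f hf k hk

end Pool.Agent.Results.MP_d6acc2_an.ShortRelations
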